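import Pool.Agent.V8H60.Area.Rect
import Pool.Agent.H66R2.RZ_Par

/-!
Bands and bumps (helper60, part P1 of MP_cbfcf7_gt).
-/

set_option autoImplicit false

namespace Pool.Agent.V8H60.Area

open Complex MeasureTheory Set
open scoped ContDiff

/-- bump equal to one on `[κ, s - κ]`, supported in `[0, s]` -/
noncomputable def chi (s κ y : ℝ) : ℝ :=
  Real.smoothTransition (y / κ) * Real.smoothTransition ((s - y) / κ)

lemma chi_contDiff (s κ : ℝ) : ContDiff ℝ ∞ (chi s κ) := by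
  have h1 : ContDiff ℝ ∞ (fun y : ℝ => y / κ) := contDiff_id.div_const κ
  have h2 : ContDiff ℝ ∞ (fun y : ℝ => (s - y) / κ) := (contDiff_const.sub contDiff_id).div_const κ
  exact (Real.smoothTransition.contDiff.comp h1).mul (Real.smoothTransition.contDiff.comp h2)

lemma chi_nonneg (s κ y : ℝ) : 0 ≤ chi s κ y :=
  mul_nonneg (Real.smoothTransition.nonneg _) (Real.smoothTransition.nonneg _)

lemma chi_le_one (s κ y : ℝ) : chi s κ y ≤ 1 :=
  mul_le_one₀ (Real.smoothTransition.le_one _) (Real.smoothTransition.nonneg _)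
    (Real.smoothTransition.le_one _)

lemma chi_of_nonpos {s κ y : ℝ} (hκ : 0 < κ) (hy : y ≤ 0) : chi s κ y = 0 := by
  unfold chi
  rw [Real.smoothTransition.zero_of_nonpos (div_nonpos_of_nonpos_of_nonneg hy hκ.le), zero_mul]

lemma chi_of_ge {s κ y : ℝ} (hκ : 0 < κ) (hy : s ≤ y) : chi s κ y = 0 := by
  unfold chi
  rw [Real.smoothTransition.zero_of_nonpos
    (div_nonpos_of_nonpos_of_nonneg (sub_nonpos.2 hy) hκ.le), mul_zero]

lemma chi_mid {s κ y : ℝ} (hκ : 0 < κ) (h1 : κ ≤ y) (h2 : y ≤ s - κ) : chi s κ y = 1 := by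
  unfold chi
  rw [Real.smoothTransition.one_of_one_le ((one_le_div hκ).2 h1),
    Real.smoothTransition.one_of_one_le ((one_le_div hκ).2 (by linarith)), one_mul]

lemma chi_other {s κ y : ℝ} (hs : 0 < s) (hκ : 0 < κ) (k : ℤ) (h1 : k * s ≤ y)
    (h2 : y ≤ (k + 1) * s) (j : ℤ) (hj : j ≠ k) : chi s κ (y - j * s) = 0 := by
  rcases lt_or_gt_of_ne hj with h | h
  · apply chi_of_ge hκ
    have h3 : (j : ℝ) + 1 ≤ k := by exact_mod_cast h
    nlinarith
  · apply chi_of_nonpos hκ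
    have h3 : (k : ℝ) + 1 ≤ j := by exact_mod_cast h
    nlinarith

/-- only one band contributes -/
lemma sum_chi {s κ y : ℝ} (hs : 0 < s) (hκ : 0 < κ) (k : ℤ) (h1 : k * s ≤ y)
    (h2 : y ≤ (k + 1) * s) (J : Finset ℤ) (a : ℤ → ℝ) :
    ∑ j ∈ J, chi s κ (y - j * s) * a j = if k ∈ J then chi s κ (y - k * s) * a k else 0 := by
  split_ifs with hk
  · apply Finset.sum_eq_single_of_mem k hk
    intro j _ hj
    rw [chi_other hs hκ k h1 h2 j hj, zero_mul]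
  · apply Finset.sum_eq_zero
    intro j hj
    have : j ≠ k := fun h => hk (h ▸ hj)
    rw [chi_other hs hκ k h1 h2 j this, zero_mul]

lemma floor_band {s : ℝ} (hs : 0 < s) (y : ℝ) :
    (⌊y / s⌋ : ℝ) * s ≤ y ∧ y ≤ ((⌊y / s⌋ : ℝ) + 1) * s := by
  constructor
  · have := Int.floor_le (y / s)
    rwa [le_div_iff₀ hs] at this
  · have := (Int.lt_floor_add_one (y / s)).le
    rwa [div_le_iff₀ hs] at this

section

variable (ρ : ℂ → ℝ) (s κ : ℝ) (J : Finset ℤ)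

/-- the integral over the band -/
noncomputable def G (j : ℤ) (u : ℝ) : ℝ :=
  ∫ t in (j * s)..((j + 1) * s), ρ ((u : ℂ) + (t : ℂ) * I)

/-- the averaged displacement -/
noncomputable def F (j : ℤ) (x : ℝ) : ℝ := (∫ u in (0:ℝ)..x, G ρ s j u) / s

/-- the horizontal map -/
noncomputable def phi (z : ℂ) : ℝ :=
  z.re + ∑ j ∈ J, chi s κ (z.im - j * s) * (F ρ s j z.re - z.re)

variable {ρ s κ J}

lemma line_contDiff : ContDiff ℝ ∞ (fun w : ℝ × ℝ => (w.1 : ℂ) + (w.2 : ℂ) * I) := by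
  have h1 : ContDiff ℝ ∞ (fun w : ℝ × ℝ => (w.1 : ℂ)) := Complex.ofRealCLM.contDiff.comp contDiff_fst
  have h2 : ContDiff ℝ ∞ (fun w : ℝ × ℝ => (w.2 : ℂ)) := Complex.ofRealCLM.contDiff.comp contDiff_snd
  exact h1.add (h2.mul contDiff_const)

lemma G_contDiff (hρ : ContDiff ℝ ∞ ρ) (j : ℤ) : ContDiff ℝ ∞ (G ρ s j) :=
  Pool.Agent.H66R2.RZPar.contDiff_int _ _ ℝ ℝ (fun w : ℝ × ℝ => ρ ((w.1 : ℂ) + (w.2 : ℂ) * I))
    (hρ.comp line_contDiff)

lemma F_hasDerivAt (hρ : ContDiff ℝ ∞ ρ) (j : ℤ) (x : ℝ) :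
    HasDerivAt (F ρ s j) (G ρ s j x / s) x := by
  have hc := (G_contDiff (s := s) hρ j).continuous
  exact (intervalIntegral.integral_hasDerivAt_right (hc.intervalIntegrable _ _)
    hc.stronglyMeasurable.stronglyMeasurableAtFilter hc.continuousAt).div_const s

lemma F_contDiff (hρ : ContDiff ℝ ∞ ρ) (j : ℤ) : ContDiff ℝ ∞ (F ρ s j) := by
  rw [contDiff_infty_iff_deriv]
  refine ⟨fun x => (F_hasDerivAt hρ j x).differentiableAt, ?_⟩
  have : deriv (F ρ s j) = fun x => G ρ s j x / s := funext fun x => (F_hasDerivAt hρ j x).deriv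
  rw [this]
  exact (G_contDiff hρ j).div_const s

lemma phi_contDiff (hρ : ContDiff ℝ ∞ ρ) : ContDiff ℝ ∞ (phi ρ s κ J) := by
  have hre : ContDiff ℝ ∞ (fun z : ℂ => z.re) := Complex.reCLM.contDiff
  have him : ContDiff ℝ ∞ (fun z : ℂ => z.im) := Complex.imCLM.contDiff
  refine hre.add (ContDiff.sum fun j _ => ?_)
  exact ((chi_contDiff s κ).comp (him.sub contDiff_const)).mul
    (((F_contDiff hρ j).comp hre).sub hre)

lemma phi_line (hρ : ContDiff ℝ ∞ ρ) (z : ℂ) :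
    fderiv ℝ (phi ρ s κ J) z 1 =
      1 + ∑ j ∈ J, chi s κ (z.im - j * s) * (G ρ s j z.re / s - 1) := by
  have h1 : HasDerivAt (fun x : ℝ => (x : ℂ) + (z.im : ℂ) * I) 1 z.re := by
    have := (Complex.ofRealCLM.hasDerivAt (x := z.re)).add_const ((z.im : ℂ) * I)
    simpa using this
  have h2 : HasFDerivAt (phi ρ s κ J) (fderiv ℝ (phi ρ s κ J) z) ((z.re : ℂ) + (z.im : ℂ) * I) := by
    rw [Complex.re_add_im]
    exact ((phi_contDiff hρ).differentiable (by simp) z).hasFDerivAt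
  have h3 := h2.comp_hasDerivAt z.re h1
  have h4 : HasDerivAt (fun x : ℝ => x + ∑ j ∈ J, chi s κ (z.im - j * s) * (F ρ s j x - x))
      (1 + ∑ j ∈ J, chi s κ (z.im - j * s) * (G ρ s j z.re / s - 1)) z.re := by
    refine (hasDerivAt_id z.re).add (HasDerivAt.fun_sum fun j _ => ?_)
    exact ((F_hasDerivAt hρ j z.re).sub (hasDerivAt_id z.re)).const_mul _
  have e : (phi ρ s κ J ∘ fun x : ℝ => (x : ℂ) + (z.im : ℂ) * I) =
      fun x : ℝ => x + ∑ j ∈ J, chi s κ (z.im - j * s) * (F ρ s j x - x) := by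
    funext x
    simp [phi]
  rw [e] at h3
  exact h3.unique h4

lemma G_bounds (hρ : ContDiff ℝ ∞ ρ) (hs : 0 < s) (m M : ℝ) (h1 : ∀ z, m ≤ ρ z)
    (h2 : ∀ z, ρ z ≤ M) (j : ℤ) (u : ℝ) : m ≤ G ρ s j u / s ∧ G ρ s j u / s ≤ M := by
  have hc : Continuous (fun t : ℝ => ρ ((u : ℂ) + (t : ℂ) * I)) :=
    hρ.continuous.comp (by fun_prop)
  have hle : (j : ℝ) * s ≤ (j + 1) * s := by nlinarith
  have e1 : ∫ _ in (j * s : ℝ)..((j + 1) * s), m = s * m := by
    rw [intervalIntegral.integral_const, smul_eq_mul]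
    ring
  have e2 : ∫ _ in (j * s : ℝ)..((j + 1) * s), M = s * M := by
    rw [intervalIntegral.integral_const, smul_eq_mul]
    ring
  have i1 : s * m ≤ G ρ s j u := by
    rw [← e1]
    exact intervalIntegral.integral_mono_on hle (by simp) (hc.intervalIntegrable _ _)
      (fun t _ => h1 _)
  have i2 : G ρ s j u ≤ s * M := by
    rw [← e2]
    exact intervalIntegral.integral_mono_on hle (hc.intervalIntegrable _ _) (by simp)
      (fun t _ => h2 _)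
  constructor
  · rw [le_div_iff₀ hs]
    linarith
  · rw [div_le_iff₀ hs]
    linarith

lemma phi_deriv_bounds (hρ : ContDiff ℝ ∞ ρ) (hs : 0 < s) (hκ : 0 < κ) (m M : ℝ)
    (h1 : ∀ z, m ≤ ρ z) (h2 : ∀ z, ρ z ≤ M) (z : ℂ) :
    min 1 m ≤ fderiv ℝ (phi ρ s κ J) z 1 ∧ fderiv ℝ (phi ρ s κ J) z 1 ≤ max 1 M := by
  obtain ⟨b1, b2⟩ := floor_band hs z.im
  rw [phi_line hρ, sum_chi hs hκ ⌊z.im / s⌋ b1 b2 J (fun j => G ρ s j z.re / s - 1)]
  split_ifs with hk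
  · obtain ⟨g1, g2⟩ := G_bounds hρ hs m M h1 h2 ⌊z.im / s⌋ z.re
    set c := chi s κ (z.im - ⌊z.im / s⌋ * s)
    have c0 : 0 ≤ c := chi_nonneg _ _ _
    have c1 : c ≤ 1 := chi_le_one _ _ _
    set q := G ρ s ⌊z.im / s⌋ z.re / s
    constructor
    · have a1 : min 1 m ≤ 1 := min_le_left _ _
      have a2 : min 1 m ≤ q := (min_le_right _ _).trans g1
      nlinarith
    · have a1 : 1 ≤ max 1 M := le_max_left _ _
      have a2 : q ≤ max 1 M := g2.trans (le_max_right _ _)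
      nlinarith
  · rw [add_zero]
    exact ⟨min_le_left _ _, le_max_left _ _⟩

lemma phi_close (hs : 0 < s) (hκ : 0 < κ) (η : ℝ) (hη : 0 ≤ η) (z : ℂ)
    (h : ∀ j ∈ J, |F ρ s j z.re - z.re| ≤ η) : |phi ρ s κ J z - z.re| ≤ η := by
  obtain ⟨b1, b2⟩ := floor_band hs z.im
  have e : phi ρ s κ J z - z.re = ∑ j ∈ J, chi s κ (z.im - j * s) * (F ρ s j z.re - z.re) := by
    simp [phi]
  rw [e, sum_chi hs hκ ⌊z.im / s⌋ b1 b2 J (fun j => F ρ s j z.re - z.re)]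
  split_ifs with hk
  · have h1 := h _ hk
    rw [abs_mul, abs_of_nonneg (chi_nonneg _ _ _)]
    calc chi s κ (z.im - ⌊z.im / s⌋ * s) * |F ρ s ⌊z.im / s⌋ z.re - z.re| ≤ 1 * η :=
        mul_le_mul (chi_le_one _ _ _) h1 (abs_nonneg _) zero_le_one
      _ = η := one_mul η
  · rw [abs_zero]
    exact hη

lemma phi_mid (hs : 0 < s) (hκ : 0 < κ) (j : ℤ) (hj : j ∈ J) (x t : ℝ)
    (h1 : j * s + κ ≤ t) (h2 : t ≤ (j + 1) * s - κ) :
    phi ρ s κ J ((x : ℂ) + (t : ℂ) * I) = F ρ s j x := by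
  have e : phi ρ s κ J ((x : ℂ) + (t : ℂ) * I) =
      x + ∑ i ∈ J, chi s κ (t - i * s) * (F ρ s i x - x) := by
    simp [phi]
  rw [e, sum_chi hs hκ j (by linarith) (by linarith) J (fun i => F ρ s i x - x), if_pos hj,
    chi_mid hκ (by linarith) (by linarith)]
  ring

lemma phi_deriv_mid (hρ : ContDiff ℝ ∞ ρ) (hs : 0 < s) (hκ : 0 < κ) (j : ℤ) (hj : j ∈ J) (x t : ℝ)
    (h1 : j * s + κ ≤ t) (h2 : t ≤ (j + 1) * s - κ) :
    fderiv ℝ (phi ρ s κ J) ((x : ℂ) + (t : ℂ) * I) 1 = G ρ s j x / s := by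
  rw [phi_line hρ]
  have e : ∑ i ∈ J, chi s κ (((x : ℂ) + (t : ℂ) * I).im - i * s) *
      (G ρ s i ((x : ℂ) + (t : ℂ) * I).re / s - 1) =
      ∑ i ∈ J, chi s κ (t - i * s) * (G ρ s i x / s - 1) := by
    simp
  rw [e, sum_chi hs hκ j (by linarith) (by linarith) J (fun i => G ρ s i x / s - 1), if_pos hj,
    chi_mid hκ (by linarith) (by linarith)]
  ring

end

end Pool.Agent.V8H60.Area
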