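import Pool.Agent.V8H60.Area.Bump

/-!
A diffeomorphism with prescribed Jacobian determinant, close to the identity when the density is
close to one in the mean over small bands (helper60, part P1 of MP_cbfcf7_gt).
-/

set_option autoImplicit false

namespace Pool.Agent.V8H60.Area

open Complex MeasureTheory Set
open scoped ContDiff

/-- the primitive in the vertical direction -/
noncomputable def prim (σ : ℂ → ℝ) (z : ℂ) : ℝ :=
  ∫ t in (0:ℝ)..z.im, σ ((z.re : ℂ) + (t : ℂ) * I)

lemma prim_contDiff {σ : ℂ → ℝ} (hσ : ContDiff ℝ ∞ σ) : ContDiff ℝ ∞ (prim σ) := by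
  have hre : ContDiff ℝ ∞ (fun z : ℂ => z.re) := Complex.reCLM.contDiff
  have him : ContDiff ℝ ∞ (fun z : ℂ => z.im) := Complex.imCLM.contDiff
  have e : prim σ = fun z : ℂ => z.im * ∫ θ in (0:ℝ)..1, σ ((z.re : ℂ) + ((θ * z.im : ℝ) : ℂ) * I) := by
    funext z
    unfold prim
    have := intervalIntegral.smul_integral_comp_mul_right
      (fun t : ℝ => σ ((z.re : ℂ) + (t : ℂ) * I)) z.im (a := 0) (b := 1)
    rw [zero_mul, one_mul] at this
    rw [← this, smul_eq_mul]
  rw [e]
  refine him.mul ?_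
  refine Pool.Agent.H66R2.RZPar.contDiff_int _ _ ℂ ℝ
    (fun w : ℂ × ℝ => σ ((w.1.re : ℂ) + ((w.2 * w.1.im : ℝ) : ℂ) * I)) ?_
  refine hσ.comp ?_
  have h1 : ContDiff ℝ ∞ (fun w : ℂ × ℝ => ((w.1.re : ℝ) : ℂ)) :=
    Complex.ofRealCLM.contDiff.comp (hre.comp contDiff_fst)
  have h2 : ContDiff ℝ ∞ (fun w : ℂ × ℝ => ((w.2 * w.1.im : ℝ) : ℂ)) :=
    Complex.ofRealCLM.contDiff.comp (contDiff_snd.mul (him.comp contDiff_fst))
  exact h1.add (h2.mul contDiff_const)

lemma prim_line {σ : ℂ → ℝ} (hσ : ContDiff ℝ ∞ σ) (z : ℂ) : fderiv ℝ (prim σ) z I = σ z := by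
  have h1 : HasDerivAt (fun y : ℝ => (z.re : ℂ) + (y : ℂ) * I) I z.im := by
    have := ((Complex.ofRealCLM.hasDerivAt (x := z.im)).mul_const I).const_add (z.re : ℂ)
    simpa using this
  have h2 : HasFDerivAt (prim σ) (fderiv ℝ (prim σ) z) ((z.re : ℂ) + (z.im : ℂ) * I) := by
    rw [Complex.re_add_im]
    exact ((prim_contDiff hσ).differentiable (by simp) z).hasFDerivAt
  have h3 := h2.comp_hasDerivAt z.im h1
  have e : (prim σ ∘ fun y : ℝ => (z.re : ℂ) + (y : ℂ) * I) =
      fun y : ℝ => ∫ t in (0:ℝ)..y, σ ((z.re : ℂ) + (t : ℂ) * I) := by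
    funext y
    simp [prim]
  rw [e] at h3
  have hc : Continuous (fun t : ℝ => σ ((z.re : ℂ) + (t : ℂ) * I)) :=
    hσ.continuous.comp (by fun_prop)
  have h4 := intervalIntegral.integral_hasDerivAt_right (hc.intervalIntegrable 0 z.im)
    hc.stronglyMeasurable.stronglyMeasurableAtFilter hc.continuousAt
  have h5 := h3.unique h4
  rw [h5, Complex.re_add_im]

/-- the primitive of a positive function with integral about `s` over the bands is close to the
identity -/
lemma prim_close (u : ℝ → ℝ) (hu : Continuous u) (hpos : ∀ t, 0 ≤ u t) (s τ : ℝ) (hs : 0 < s)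
    (N : ℕ) (hN : N * τ ≤ s)
    (hband : ∀ j : ℤ, -(N:ℤ) ≤ j → j < N → |(∫ t in (j * s)..((j + 1) * s), u t) - s| ≤ τ)
    (y : ℝ) (hy : |y| ≤ N * s) : |(∫ t in (0:ℝ)..y, u t) - y| ≤ 2 * s := by
  have hii : ∀ a b : ℝ, IntervalIntegrable u volume a b := fun a b => hu.intervalIntegrable a b
  have hmono : ∀ a b : ℝ, a ≤ b → (∫ t in (0:ℝ)..a, u t) ≤ ∫ t in (0:ℝ)..b, u t := by
    intro a b hab
    have h1 := intervalIntegral.integral_add_adjacent_intervals (hii 0 a) (hii a b)
    have h2 := intervalIntegral.integral_nonneg (μ := volume) hab (fun t _ => hpos t)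
    linarith
  -- grid
  have gpos : ∀ n : ℕ, n ≤ N → |(∫ t in (0:ℝ)..(n * s), u t) - n * s| ≤ n * τ := by
    intro n
    induction n with
    | zero => intro _; simp
    | succ n ih =>
      intro hn
      have h1 := ih (by omega)
      have h2 := hband n (by omega) (by exact_mod_cast hn)
      have h3 := intervalIntegral.integral_add_adjacent_intervals (hii 0 (n * s))
        (hii (n * s) ((n + 1) * s))
      push_cast at h2 ⊢
      rw [abs_le] at h1 h2 ⊢
      constructor <;> nlinarith [h1.1, h1.2, h2.1, h2.2]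
  have gneg : ∀ n : ℕ, n ≤ N → |(∫ t in (0:ℝ)..(-(n * s)), u t) + n * s| ≤ n * τ := by
    intro n
    induction n with
    | zero => intro _; simp
    | succ n ih =>
      intro hn
      have h1 := ih (by omega)
      have h2 := hband (-(n:ℤ) - 1) (by push_cast; omega) (by omega)
      have e1 : ((-(n:ℤ) - 1 : ℤ) : ℝ) * s = -((n + 1) * s) := by push_cast; ring
      have e2 : (((-(n:ℤ) - 1 : ℤ) : ℝ) + 1) * s = -(n * s) := by push_cast; ring
      rw [e1, e2] at h2
      have h3 := intervalIntegral.integral_add_adjacent_intervals (hii 0 (-((n + 1) * s)))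
        (hii (-((n + 1) * s)) (-(n * s)))
      push_cast at h2 ⊢
      rw [abs_le] at h1 h2 ⊢
      constructor <;> nlinarith [h1.1, h1.2, h2.1, h2.2]
  have hτ : ∀ n : ℕ, n ≤ N → (n:ℝ) * τ ≤ s := by
    intro n hn
    rcases Nat.eq_zero_or_pos N with h0 | h0
    · have : n = 0 := by omega
      rw [this]
      simp [hs.le]
    · have hτ0 : 0 ≤ τ := by
        have := hband 0 (by omega) (by exact_mod_cast h0)
        exact (abs_nonneg _).trans this
      have : (n:ℝ) ≤ N := by exact_mod_cast hn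
      nlinarith
  have grid : ∀ j : ℤ, -(N:ℤ) ≤ j → j ≤ N → |(∫ t in (0:ℝ)..(j * s), u t) - j * s| ≤ s := by
    intro j h1 h2
    rcases le_total 0 j with h | h
    · obtain ⟨n, rfl⟩ := Int.eq_ofNat_of_zero_le h
      have hn : n ≤ N := by exact_mod_cast h2
      have := (gpos n hn).trans (hτ n hn)
      simpa using this
    · obtain ⟨n, hn⟩ := Int.eq_ofNat_of_zero_le (neg_nonneg.2 h)
      have hj : j = -(n:ℤ) := by omega
      subst hj
      have hn : n ≤ N := by omega
      have := (gneg n hn).trans (hτ n hn)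
      have e1 : ((-(n:ℤ) : ℤ) : ℝ) * s = -(n * s) := by push_cast; ring
      rw [e1, sub_neg_eq_add]
      exact this
  rw [abs_le] at hy
  obtain ⟨b1, b2⟩ := floor_band hs y
  by_cases hyN : y = N * s
  · have := grid N (by omega) le_rfl
    rw [hyN]
    have e1 : (((N:ℕ):ℤ) : ℝ) * s = N * s := by push_cast; ring
    rw [e1] at this
    linarith
  · have hylt : y < N * s := lt_of_le_of_ne hy.2 hyN
    set k := ⌊y / s⌋ with hk
    have hk1 : -(N:ℤ) ≤ k := by
      rw [hk]
      apply Int.le_floor.2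
      rw [le_div_iff₀ hs]
      push_cast
      linarith [hy.1]
    have hk2 : k < N := by
      rw [hk]
      apply Int.floor_lt.2
      rw [div_lt_iff₀ hs]
      push_cast
      exact hylt
    have g1 := abs_le.1 (grid k hk1 hk2.le)
    have g2 := grid (k + 1) (by omega) (by omega)
    push_cast at g2
    have g2 := abs_le.1 g2
    have m1 := hmono _ _ b1
    have m2 := hmono _ _ b2
    rw [abs_le]
    constructor <;> nlinarith [g1.1, g1.2, g2.1, g2.2]

/-- the main correction lemma -/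
theorem correct (s : ℝ) (hs : 0 < s) (N : ℕ) (ρ : ℂ → ℝ) (hρ : ContDiff ℝ ∞ ρ) (m M : ℝ)
    (hm : 0 < m) (h1 : ∀ z, m ≤ ρ z) (h2 : ∀ z, ρ z ≤ M) (η : ℝ) (hη0 : 0 ≤ η)
    (hη : ∀ j : ℤ, -(N:ℤ) ≤ j → j < N → ∀ x : ℝ, |x| ≤ N * s → |F ρ s j x - x| ≤ η) :
    ∃ Φ : ℂ ≃ₜ ℂ, ContDiff ℝ ∞ (⇑Φ) ∧ ContDiff ℝ ∞ (⇑Φ.symm) ∧
      (∀ z, (fderiv ℝ (⇑Φ) z).det = ρ z) ∧
      ∀ z : ℂ, |z.re| ≤ N * s → |z.im| ≤ N * s → ‖Φ z - z‖ ≤ η + 2 * s := by
  have hM : 0 < M := hm.trans_le ((h1 0).trans (h2 0))
  set J : Finset ℤ := Finset.Ico (-(N:ℤ)) N with hJ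
  set mm := min 1 m with hmm
  have hmm0 : 0 < mm := lt_min one_pos hm
  set MM := max 1 M with hMM
  have hMM0 : 0 < MM := lt_of_lt_of_le one_pos (le_max_left _ _)
  -- the bound for the new density
  set K := M / mm with hK
  have hK0 : 0 < K := div_pos hM hmm0
  -- the width of the transition zones
  obtain ⟨κ, hκ, hκs, hκN⟩ : ∃ κ : ℝ, 0 < κ ∧ 2 * κ ≤ s ∧ N * (2 * κ * K) ≤ s := by
    refine ⟨min (s / 2) (s / (2 * K * (N + 1))), ?_, ?_, ?_⟩
    · apply lt_min <;> positivity
    · have := min_le_left (s / 2) (s / (2 * K * (N + 1)))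
      linarith
    · have h3 := min_le_right (s / 2) (s / (2 * K * (N + 1)))
      have h4 : min (s / 2) (s / (2 * K * (N + 1))) * (2 * K * (N + 1)) ≤ s := by
        rwa [le_div_iff₀ (by positivity)] at h3
      have h5 : 0 ≤ min (s / 2) (s / (2 * K * (N + 1))) := by positivity
      nlinarith [mul_nonneg h5 hK0.le]
  set φ := phi ρ s κ J with hφ
  have hφs : ContDiff ℝ ∞ φ := phi_contDiff hρ
  have hφd : ∀ z, mm ≤ fderiv ℝ φ z 1 ∧ fderiv ℝ φ z 1 ≤ MM := fun z =>
    phi_deriv_bounds hρ hs hκ m M h1 h2 z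
  obtain ⟨A, A1, A2, A3, A4⟩ := horiz φ hφs mm hmm0 (fun z => (hφd z).1)
  -- the new density
  set σ : ℂ → ℝ := fun w => ρ (A.symm w) / fderiv ℝ φ (A.symm w) 1 with hσ
  have hφds : ContDiff ℝ ∞ (fun z => fderiv ℝ φ z 1) :=
    (hφs.fderiv_right (m := ∞) (by simp)).clm_apply contDiff_const
  have hσs : ContDiff ℝ ∞ σ :=
    (hρ.comp A3).div (hφds.comp A3) (fun w => (hmm0.trans_le (hφd (A.symm w)).1).ne')
  have hσpos : ∀ w, m / MM ≤ σ w := by
    intro w
    exact div_le_div₀ (hm.le.trans (h1 _)) (h1 _) (hmm0.trans_le (hφd _).1) (hφd _).2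
  have hσ0 : ∀ w, 0 ≤ σ w := fun w => (div_pos hm hMM0).le.trans (hσpos w)
  have hσK : ∀ w, σ w ≤ K := by
    intro w
    exact div_le_div₀ hM.le (h2 _) hmm0 (hφd _).1
  obtain ⟨B, B1, B2, B3, B4⟩ := vert (prim σ) (prim_contDiff hσs) (m / MM) (div_pos hm hMM0)
    (fun z => by rw [prim_line hσs]; exact hσpos z)
  refine ⟨A.trans B, B2.comp A2, A3.comp B3, ?_, ?_⟩
  · intro z
    have hd1 : HasFDerivAt (fun z => B (A z)) ((fderiv ℝ B (A z)).comp (fderiv ℝ A z)) z :=
      ((B2.differentiable (by simp) (A z)).hasFDerivAt).comp z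
        ((A2.differentiable (by simp) z).hasFDerivAt)
    have e : (⇑(A.trans B)) = fun z => B (A z) := rfl
    rw [e, hd1.fderiv]
    have hdet : ((fderiv ℝ B (A z)).comp (fderiv ℝ A z)).det =
        (fderiv ℝ B (A z)).det * (fderiv ℝ A z).det := by
      show LinearMap.det (((fderiv ℝ B (A z) : ℂ →L[ℝ] ℂ) : ℂ →ₗ[ℝ] ℂ) ∘ₗ
        ((fderiv ℝ A z : ℂ →L[ℝ] ℂ) : ℂ →ₗ[ℝ] ℂ)) = _
      rw [LinearMap.det_comp]
    rw [hdet, B4, prim_line hσs, A4]
    simp only [hσ, A.symm_apply_apply]
    exact div_mul_cancel₀ _ (hmm0.trans_le (hφd z).1).ne'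
  · intro z hz1 hz2
    have hAre : (A z).re = φ z := by rw [A1]; simp
    have hAim : (A z).im = z.im := by rw [A1]; simp
    -- horizontal displacement
    have c1 : |φ z - z.re| ≤ η := phi_close hs hκ η hη0 z (fun j hj => by
      rw [hJ, Finset.mem_Ico] at hj
      exact hη j hj.1 hj.2 z.re hz1)
    -- vertical displacement
    have hc : Continuous (fun t : ℝ => σ (((A z).re : ℂ) + (t : ℂ) * I)) :=
      hσs.continuous.comp (by fun_prop)
    have c2 : |prim σ (A z) - z.im| ≤ 2 * s := by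
      have h3 := prim_close (fun t : ℝ => σ (((A z).re : ℂ) + (t : ℂ) * I)) hc
        (fun t => hσ0 _) s (2 * κ * K) hs N hκN ?_ z.im hz2
      · unfold prim
        rw [hAim]
        exact h3
      · intro j hj1 hj2
        have hjJ : j ∈ J := by rw [hJ, Finset.mem_Ico]; exact ⟨hj1, hj2⟩
        set x := (A z).re with hx
        -- the point with F j x0 = x
        obtain ⟨x0, hx0⟩ : ∃ x0, F ρ s j x0 = x :=
          (line_bij (F ρ s j) m hm (fun x => G ρ s j x / s) (fun x => F_hasDerivAt hρ j x)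
            (fun x => (G_bounds hρ hs m M h1 h2 j x).1)).2 x
        obtain ⟨q1, q2⟩ := G_bounds hρ hs m M h1 h2 j x0
        set q := G ρ s j x0 / s with hq
        have hq0 : 0 < q := hm.trans_le q1
        have hqmm : mm ≤ q := (min_le_right _ _).trans q1
        set v : ℝ → ℝ := fun t => ρ ((x0 : ℂ) + (t : ℂ) * I) / q with hv
        have hvc : Continuous v := (hρ.continuous.comp (by fun_prop)).div_const q
        have hv0 : ∀ t, 0 ≤ v t := fun t => div_nonneg (hm.le.trans (h1 _)) hq0.le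
        have hvK : ∀ t, v t ≤ K := fun t => div_le_div₀ hM.le (h2 _) hmm0 hqmm
        have hvint : ∫ t in (j * s : ℝ)..((j + 1) * s), v t = s := by
          have : ∫ t in (j * s : ℝ)..((j + 1) * s), v t = G ρ s j x0 / q := by
            rw [hv, intervalIntegral.integral_div]
            rfl
          rw [this, hq]
          have hG : G ρ s j x0 ≠ 0 := by
            intro h0
            rw [h0, zero_div] at hq
            linarith
          field_simp
        have hmid : ∀ t, j * s + κ ≤ t → t ≤ (j + 1) * s - κ →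
            σ ((x : ℂ) + (t : ℂ) * I) = v t := by
          intro t ht1 ht2
          have hA : A ((x0 : ℂ) + (t : ℂ) * I) = (x : ℂ) + (t : ℂ) * I := by
            rw [A1]
            have e1 : φ ((x0 : ℂ) + (t : ℂ) * I) = x := by
              rw [hφ, phi_mid hs hκ j hjJ x0 t ht1 ht2, hx0]
            rw [e1]
            simp
          have hA' : A.symm ((x : ℂ) + (t : ℂ) * I) = (x0 : ℂ) + (t : ℂ) * I := by
            rw [← hA, A.symm_apply_apply]
          simp only [hσ, hv, hA']
          rw [hφ, phi_deriv_mid hρ hs hκ j hjJ x0 t ht1 ht2]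
        have hdiff : ∀ t : ℝ, |σ ((x : ℂ) + (t : ℂ) * I) - v t| ≤ K := by
          intro t
          rw [abs_le]
          have a1 := hσ0 ((x : ℂ) + (t : ℂ) * I)
          have a2 := hσK ((x : ℂ) + (t : ℂ) * I)
          have a3 := hv0 t
          have a4 := hvK t
          constructor <;> linarith
        set w : ℝ → ℝ := fun t => σ ((x : ℂ) + (t : ℂ) * I) - v t with hw
        have hwc : Continuous w := hc.sub hvc
        have hwi : ∀ a b : ℝ, IntervalIntegrable w volume a b := fun a b =>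
          hwc.intervalIntegrable a b
        have e0 : (∫ t in (j * s : ℝ)..((j + 1) * s), σ ((x : ℂ) + (t : ℂ) * I)) - s =
            ∫ t in (j * s : ℝ)..((j + 1) * s), w t := by
          rw [hw, intervalIntegral.integral_sub (hc.intervalIntegrable _ _)
            (hvc.intervalIntegrable _ _), hvint]
        rw [e0]
        have i1 := intervalIntegral.integral_add_adjacent_intervals
          (hwi (j * s) (j * s + κ)) (hwi (j * s + κ) ((j + 1) * s - κ))
        have i2 := intervalIntegral.integral_add_adjacent_intervals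
          (hwi (j * s) ((j + 1) * s - κ)) (hwi ((j + 1) * s - κ) ((j + 1) * s))
        have z1 : ∫ t in (j * s + κ : ℝ)..((j + 1) * s - κ), w t = 0 := by
          rw [intervalIntegral.integral_congr (g := fun _ => (0:ℝ))]
          · simp
          · intro t ht
            have hle : (j : ℝ) * s + κ ≤ (j + 1) * s - κ := by linarith
            rw [uIcc_of_le hle] at ht
            show σ ((x : ℂ) + (t : ℂ) * I) - v t = 0
            rw [hmid t ht.1 ht.2, sub_self]
        have n1 : ‖∫ t in (j * s : ℝ)..(j * s + κ), w t‖ ≤ K * |j * s + κ - j * s| :=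
          intervalIntegral.norm_integral_le_of_norm_le_const fun t _ => hdiff t
        have n2 : ‖∫ t in ((j + 1) * s - κ : ℝ)..((j + 1) * s), w t‖ ≤
            K * |(j + 1) * s - ((j + 1) * s - κ)| :=
          intervalIntegral.norm_integral_le_of_norm_le_const fun t _ => hdiff t
        have d1 : |(j : ℝ) * s + κ - j * s| = κ := by
          rw [add_sub_cancel_left, abs_of_pos hκ]
        have d2 : |((j : ℝ) + 1) * s - ((j + 1) * s - κ)| = κ := by
          rw [sub_sub_cancel, abs_of_pos hκ]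
        rw [d1, Real.norm_eq_abs, abs_le] at n1
        rw [d2, Real.norm_eq_abs, abs_le] at n2
        rw [abs_le]
        constructor <;> nlinarith [n1.1, n1.2, n2.1, n2.2]
    have hBre : (B (A z)).re = φ z := by rw [B1, ← hAre]; simp
    have hBim : (B (A z)).im = prim σ (A z) := by rw [B1]; simp
    show ‖B (A z) - z‖ ≤ η + 2 * s
    refine (Complex.norm_le_abs_re_add_abs_im _).trans ?_
    rw [Complex.sub_re, Complex.sub_im, hBre, hBim]
    exact add_le_add c1 c2

end Pool.Agent.V8H60.Area
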