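import Pool.Agent.V8H60.Area.Corr
import Pool.Agent.V8H80.Stm

/-!
Area correction of a diffeomorphism close to an area preserving homeomorphism (helper60, part P1 of
MP_cbfcf7_gt).
-/

set_option autoImplicit false

namespace Pool.Agent.V8H60.Area

open Complex MeasureTheory Set Pool.Agent.V8H80
open scoped ContDiff

/-- the interval integral of the band integrals -/
lemma F_close (g : ℂ ≃ₜ ℂ) (hg : ContDiff ℝ ∞ (⇑g)) (hgs : ContDiff ℝ ∞ (⇑g.symm))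
    (hpos : ∀ z, 0 < (fderiv ℝ (⇑g) z).det) (f : ℂ ≃ₜ ℂ) (hf : MeasurePreserving (⇑f))
    (R δ L : ℝ) (hδ : 0 < δ) (hδ1 : δ ≤ 1)
    (hR : ∀ z, f z ∈ rect (-L) L (-L) L → ‖z‖ ≤ R)
    (hR' : ∀ z, g z ∈ rect (-L) L (-L) L → ‖z‖ ≤ R)
    (hfg : ∀ z : ℂ, ‖z‖ ≤ R → ‖g z - f z‖ ≤ δ) (s : ℝ) (hs : 0 < s) (N : ℕ) (hL : L = N * s)
    (j : ℤ) (hj1 : -(N:ℤ) ≤ j) (hj2 : j < N) (x : ℝ) (hx : |x| ≤ L) :
    |F (fun w => ((fderiv ℝ (⇑g) (g.symm w)).det)⁻¹) s j x - x| ≤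
      δ * (2 * L + 2 * s + 4) / s := by
  set ρ : ℂ → ℝ := fun w => ((fderiv ℝ (⇑g) (g.symm w)).det)⁻¹ with hρ
  have hdet : ContDiff ℝ ∞ (fun z => (fderiv ℝ (⇑g) z).det) :=
    det_contDiff.comp (hg.fderiv_right (m := ∞) (by simp))
  have hρs : ContDiff ℝ ∞ ρ := (hdet.comp hgs).inv (fun w => (hpos _).ne')
  rw [abs_le] at hx
  have hp : -L ≤ j * s := by
    have : (-(N:ℝ)) ≤ j := by exact_mod_cast hj1
    rw [hL]
    nlinarith
  have hq : (j + 1) * s ≤ L := by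
    have : (j:ℝ) + 1 ≤ N := by exact_mod_cast hj2
    rw [hL]
    nlinarith
  have hpq : (j:ℝ) * s ≤ (j + 1) * s := by nlinarith
  have hL0 : 0 ≤ L := by linarith [hx.1, hx.2]
  have main : ∀ a b : ℝ, a ≤ b → -L ≤ a → b ≤ L → b - a ≤ L →
      |(∫ u in a..b, G ρ s j u) - (b - a) * s| ≤ δ * (2 * L + 2 * s + 4) := by
    intro a b hab ha hb hba
    have h1 := integral_rect ρ hρs.continuous a b (j * s) ((j + 1) * s) hab hpq
    have h2 := integral_density g hg hpos (rect a b (j * s) ((j + 1) * s))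
      (measurableSet_rect _ _ _ _)
    have h3 := area_close f g hf R δ L hδ hR hR' hfg a b (j * s) ((j + 1) * s) hab hpq ha hb hp hq
    have h4 : ∫ u in a..b, G ρ s j u = (volume (g ⁻¹' rect a b (j * s) ((j + 1) * s))).toReal := by
      rw [← h2, h1]
      rfl
    rw [h4]
    have e1 : (j + 1) * s - j * s = s := by ring
    rw [e1] at h3
    refine h3.trans ?_
    nlinarith
  rw [le_div_iff₀ hs, ← abs_of_pos hs, ← abs_mul, abs_of_pos hs]
  have e2 : (F ρ s j x - x) * s = (∫ u in (0:ℝ)..x, G ρ s j u) - x * s := by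
    unfold F
    field_simp
  rw [e2]
  rcases le_total 0 x with h | h
  · have := main 0 x h (by linarith) hx.2 (by linarith [hx.2])
    rwa [sub_zero] at this
  · have := main x 0 h hx.1 hL0 (by linarith [hx.1])
    rw [intervalIntegral.integral_symm, ← abs_neg]
    have e3 : -(-(∫ u in x..(0:ℝ), G ρ s j u) - x * s) =
        (∫ u in x..(0:ℝ), G ρ s j u) - (0 - x) * s := by ring
    rw [e3]
    exact this

/-- P1: area correction -/
theorem t_area : S_area := by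
  intro f hf r ε hε
  -- size of the image of the ball
  obtain ⟨M, hM⟩ : ∃ M : ℝ, ∀ z : ℂ, ‖z‖ ≤ r → ‖f z‖ ≤ M := by
    obtain ⟨M, hM⟩ := (isCompact_closedBall (0:ℂ) r).exists_bound_of_continuousOn
      (f := ⇑f) f.continuous.continuousOn
    exact ⟨M, fun z hz => hM z (by rwa [mem_closedBall_zero_iff])⟩
  set s : ℝ := ε / 8 with hs
  have hs0 : 0 < s := by rw [hs]; linarith
  obtain ⟨N, hN⟩ := exists_nat_ge ((max M 0 + 2) / s)
  set L : ℝ := N * s with hL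
  have hLM : max M 0 + 2 ≤ L := by
    rw [div_le_iff₀ hs0] at hN
    exact hN
  have hLM1 : M + 2 ≤ L := by linarith [le_max_left M 0]
  have hL2 : 2 ≤ L := by linarith [le_max_right M 0]
  -- the radius
  obtain ⟨R0, hR0⟩ : ∃ R0 : ℝ, ∀ z, f z ∈ rect (-(L + 1)) (L + 1) (-(L + 1)) (L + 1) → ‖z‖ < R0 := by
    have hc : IsCompact (f ⁻¹' rect (-(L + 1)) (L + 1) (-(L + 1)) (L + 1)) :=
      (Homeomorph.isCompact_preimage f).2 (isCompact_rect _ _ _ _)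
    obtain ⟨C, hC⟩ := hc.isBounded.exists_norm_le
    exact ⟨C + 1, fun z hz => (hC z hz).trans_lt (by linarith)⟩
  set R : ℝ := max R0 r with hR
  have hRf : ∀ z, f z ∈ rect (-(L + 1)) (L + 1) (-(L + 1)) (L + 1) → ‖z‖ < R := fun z hz =>
    (hR0 z hz).trans_le (le_max_left _ _)
  set T : ℝ := 2 * L + 2 * s + 4 with hT
  have hT0 : 0 < T := by rw [hT]; linarith
  set δ : ℝ := min 1 (min (ε / 8) (s * (ε / 8) / T)) with hδ
  have hδ0 : 0 < δ := lt_min one_pos (lt_min (by linarith) (by positivity))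
  have hδ1 : δ ≤ 1 := min_le_left _ _
  have hδ2 : δ ≤ ε / 8 := (min_le_right _ _).trans (min_le_left _ _)
  have hδ3 : δ * T / s ≤ ε / 8 := by
    have h1 : δ ≤ s * (ε / 8) / T := (min_le_right _ _).trans (min_le_right _ _)
    rw [le_div_iff₀ hT0] at h1
    rw [div_le_iff₀ hs0]
    linarith
  refine ⟨R, δ, hδ0, ?_⟩
  intro g hg hfg
  obtain ⟨hgs, hgss, c, C, hc, hcC⟩ := hg
  have hpos : ∀ z, 0 < (fderiv ℝ (⇑g) z).det := fun z => hc.trans_le (hcC z).1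
  have hC0 : 0 < C := hc.trans_le ((hcC 0).1.trans (hcC 0).2)
  have hfg1 : ∀ z : ℂ, ‖z‖ ≤ R → ‖g z - f z‖ ≤ 1 := fun z hz => (hfg z hz).trans hδ1
  have hsub : ∀ z : ℂ, f z ∈ rect (-L) L (-L) L → ‖z‖ ≤ R := by
    rintro z ⟨⟨h1, h2⟩, h3, h4⟩
    exact (hRf z ⟨⟨by linarith, by linarith⟩, by linarith, by linarith⟩).le
  have hsub' := preim_sub f g R L (by linarith) hRf hfg1 (by linarith)
  set ρ : ℂ → ℝ := fun w => ((fderiv ℝ (⇑g) (g.symm w)).det)⁻¹ with hρ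
  have hdet : ContDiff ℝ ∞ (fun z => (fderiv ℝ (⇑g) z).det) :=
    det_contDiff.comp (hgs.fderiv_right (m := ∞) (by simp))
  have hρs : ContDiff ℝ ∞ ρ := (hdet.comp hgss).inv (fun w => (hpos _).ne')
  obtain ⟨Φ, P1, P2, P3, P4⟩ := correct s hs0 N ρ hρs C⁻¹ c⁻¹ (inv_pos.2 hC0)
    (fun w => inv_anti₀ (hpos _) (hcC _).2) (fun w => inv_anti₀ hc (hcC _).1) (ε / 8) (by linarith)
    (fun j hj1 hj2 x hx => (F_close g hgs hgss hpos f hf R δ L hδ0 hδ1 hsub hsub' hfg s hs0 N hL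
      j hj1 hj2 x hx).trans hδ3)
  refine ⟨g.trans Φ, ⟨P1.comp hgs, hgss.comp P2, ?_⟩, ?_⟩
  · intro z
    have hd1 : HasFDerivAt (fun z => Φ (g z)) ((fderiv ℝ Φ (g z)).comp (fderiv ℝ g z)) z :=
      ((P1.differentiable (by simp) (g z)).hasFDerivAt).comp z
        ((hgs.differentiable (by simp) z).hasFDerivAt)
    have e : (⇑(g.trans Φ)) = fun z => Φ (g z) := rfl
    rw [e, hd1.fderiv]
    have hdet2 : ((fderiv ℝ Φ (g z)).comp (fderiv ℝ g z)).det =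
        (fderiv ℝ Φ (g z)).det * (fderiv ℝ g z).det := by
      show LinearMap.det (((fderiv ℝ Φ (g z) : ℂ →L[ℝ] ℂ) : ℂ →ₗ[ℝ] ℂ) ∘ₗ
        ((fderiv ℝ g z : ℂ →L[ℝ] ℂ) : ℂ →ₗ[ℝ] ℂ)) = _
      rw [LinearMap.det_comp]
    rw [hdet2, P3]
    simp only [hρ, g.symm_apply_apply]
    exact inv_mul_cancel₀ (hpos z).ne'
  · intro z hz
    have hzR : ‖z‖ ≤ R := hz.trans (le_max_right _ _)
    have h1 := hfg z hzR
    have h2 := hM z hz
    have h3 : ‖g z‖ ≤ L := by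
      have : ‖g z‖ ≤ ‖g z - f z‖ + ‖f z‖ := by
        calc ‖g z‖ = ‖(g z - f z) + f z‖ := by rw [sub_add_cancel]
          _ ≤ _ := norm_add_le _ _
      linarith
    have h4 := P4 (g z) ((Complex.abs_re_le_norm _).trans h3) ((Complex.abs_im_le_norm _).trans h3)
    show ‖Φ (g z) - f z‖ < ε
    calc ‖Φ (g z) - f z‖ = ‖(Φ (g z) - g z) + (g z - f z)‖ := by rw [sub_add_sub_cancel]
      _ ≤ ‖Φ (g z) - g z‖ + ‖g z - f z‖ := norm_add_le _ _
      _ ≤ (ε / 8 + 2 * s) + ε / 8 := add_le_add h4 (h1.trans hδ2)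
      _ < ε := by rw [hs]; linarith

end Pool.Agent.V8H60.Area
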