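import Pool.Agent.V8H60.Area.Tri

/-!
Areas of preimages of rectangles (helper60, part P1 of MP_cbfcf7_gt).
-/

set_option autoImplicit false

namespace Pool.Agent.V8H60.Area

open Complex MeasureTheory Set
open scoped ContDiff

/-- the closed rectangle `[a,b] × [p,q]` -/
def rect (a b p q : ℝ) : Set ℂ := {z | (a ≤ z.re ∧ z.re ≤ b) ∧ (p ≤ z.im ∧ z.im ≤ q)}

lemma rect_eq (a b p q : ℝ) :
    rect a b p q = Complex.measurableEquivRealProd ⁻¹' (Icc a b ×ˢ Icc p q) := by
  ext z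
  simp [rect, Complex.measurableEquivRealProd_apply]
  tauto

lemma measurableSet_rect (a b p q : ℝ) : MeasurableSet (rect a b p q) := by
  rw [rect_eq]
  exact Complex.measurableEquivRealProd.measurable (measurableSet_Icc.prod measurableSet_Icc)

lemma isClosed_rect (a b p q : ℝ) : IsClosed (rect a b p q) := by
  have h1 : rect a b p q = Complex.re ⁻¹' (Icc a b) ∩ Complex.im ⁻¹' (Icc p q) := by
    ext z
    simp [rect]
  rw [h1]
  exact (isClosed_Icc.preimage Complex.continuous_re).inter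
    (isClosed_Icc.preimage Complex.continuous_im)

lemma isCompact_rect (a b p q : ℝ) : IsCompact (rect a b p q) := by
  refine Metric.isCompact_of_isClosed_isBounded (isClosed_rect a b p q) ?_
  refine (Metric.isBounded_closedBall (x := (0:ℂ)) (r := (|a| + |b|) + (|p| + |q|))).subset ?_
  intro z hz
  obtain ⟨⟨h1, h2⟩, h3, h4⟩ := hz
  rw [mem_closedBall_zero_iff]
  have h5 := Complex.norm_le_abs_re_add_abs_im z
  have h6 : |z.re| ≤ |a| + |b| := by
    rw [abs_le]
    constructor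
    · linarith [neg_abs_le a, abs_nonneg b]
    · linarith [le_abs_self b, abs_nonneg a]
  have h7 : |z.im| ≤ |p| + |q| := by
    rw [abs_le]
    constructor
    · linarith [neg_abs_le p, abs_nonneg q]
    · linarith [le_abs_self q, abs_nonneg p]
  linarith

lemma convex_rect (a b p q : ℝ) : Convex ℝ (rect a b p q) := by
  have h1 : rect a b p q = Complex.reLm ⁻¹' (Icc a b) ∩ Complex.imLm ⁻¹' (Icc p q) := by
    ext z
    simp [rect]
  rw [h1]
  exact ((convex_Icc a b).linear_preimage _).inter ((convex_Icc p q).linear_preimage _)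

lemma volume_rect (a b p q : ℝ) :
    volume (rect a b p q) = ENNReal.ofReal (b - a) * ENNReal.ofReal (q - p) := by
  rw [rect_eq, Complex.volume_preserving_equiv_real_prod.measure_preimage
    (measurableSet_Icc.prod measurableSet_Icc).nullMeasurableSet, Measure.volume_eq_prod,
    Measure.prod_prod, Real.volume_Icc, Real.volume_Icc]

/-- integral over a rectangle as an iterated integral -/
lemma integral_rect (ρ : ℂ → ℝ) (hρ : Continuous ρ) (a b p q : ℝ) (hab : a ≤ b) (hpq : p ≤ q) :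
    ∫ z in rect a b p q, ρ z = ∫ x in a..b, ∫ t in p..q, ρ ((x : ℂ) + (t : ℂ) * I) := by
  have h1 : ∫ z in rect a b p q, ρ z =
      ∫ w in Icc a b ×ˢ Icc p q, ρ ((w.1 : ℂ) + (w.2 : ℂ) * I) := by
    rw [rect_eq]
    have h2 := Complex.volume_preserving_equiv_real_prod.setIntegral_preimage_emb
      Complex.measurableEquivRealProd.measurableEmbedding
      (fun w : ℝ × ℝ => ρ ((w.1 : ℂ) + (w.2 : ℂ) * I)) (Icc a b ×ˢ Icc p q)
    rw [← h2]
    apply integral_congr_ae
    refine Filter.Eventually.of_forall fun z => ?_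
    show ρ z = ρ (((z.re : ℝ) : ℂ) + ((z.im : ℝ) : ℂ) * I)
    rw [Complex.re_add_im]
  have hc : Continuous (fun w : ℝ × ℝ => ρ ((w.1 : ℂ) + (w.2 : ℂ) * I)) := by
    refine hρ.comp ?_
    fun_prop
  have hint : IntegrableOn (fun w : ℝ × ℝ => ρ ((w.1 : ℂ) + (w.2 : ℂ) * I))
      (Icc a b ×ˢ Icc p q) (volume.prod volume) := by
    rw [← Measure.volume_eq_prod]
    exact hc.continuousOn.integrableOn_compact (isCompact_Icc.prod isCompact_Icc)
  rw [h1, Measure.volume_eq_prod, setIntegral_prod _ hint,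
    intervalIntegral.integral_of_le hab, ← integral_Icc_eq_integral_Ioc]
  apply integral_congr_ae
  refine Filter.Eventually.of_forall fun x => ?_
  show ∫ t in Icc p q, ρ ((x : ℂ) + (t : ℂ) * I) = ∫ t in p..q, ρ ((x : ℂ) + (t : ℂ) * I)
  rw [intervalIntegral.integral_of_le hpq, ← integral_Icc_eq_integral_Ioc]

/-- the density of the image of the area under a diffeomorphism -/
lemma integral_density (g : ℂ ≃ₜ ℂ) (hg : ContDiff ℝ ∞ (⇑g))
    (hpos : ∀ z, 0 < (fderiv ℝ (⇑g) z).det) (S : Set ℂ) (hS : MeasurableSet S) :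
    ∫ w in S, ((fderiv ℝ (⇑g) (g.symm w)).det)⁻¹ = (volume (g ⁻¹' S)).toReal := by
  have hm : MeasurableSet (g ⁻¹' S) := g.continuous.measurable hS
  have h1 := integral_image_eq_integral_abs_det_fderiv_smul (μ := (volume : Measure ℂ)) hm
    (f := ⇑g) (f' := fun z => fderiv ℝ (⇑g) z)
    (fun z _ => ((hg.differentiable (by simp) z).hasFDerivAt).hasFDerivWithinAt)
    g.injective.injOn (fun w => ((fderiv ℝ (⇑g) (g.symm w)).det)⁻¹)
  have h2 : ⇑g '' (g ⁻¹' S) = S := Set.image_preimage_eq S g.surjective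
  rw [h2] at h1
  rw [h1]
  have h3 : ∀ z, |(fderiv ℝ (⇑g) z).det| • ((fderiv ℝ (⇑g) (g.symm (g z))).det)⁻¹ = 1 := by
    intro z
    rw [g.symm_apply_apply, abs_of_pos (hpos z), smul_eq_mul, mul_inv_cancel₀ (hpos z).ne']
  simp only [h3]
  rw [setIntegral_const, smul_eq_mul, mul_one]
  rfl

/-- comparison of areas of preimages of rectangles -/
lemma area_close (f g : ℂ ≃ₜ ℂ) (hf : MeasurePreserving (⇑f)) (R δ L : ℝ) (hδ : 0 < δ)
    (hR : ∀ z, f z ∈ rect (-L) L (-L) L → ‖z‖ ≤ R)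
    (hR' : ∀ z, g z ∈ rect (-L) L (-L) L → ‖z‖ ≤ R)
    (hfg : ∀ z : ℂ, ‖z‖ ≤ R → ‖g z - f z‖ ≤ δ) (a b p q : ℝ) (hab : a ≤ b) (hpq : p ≤ q)
    (ha : -L ≤ a) (hb : b ≤ L) (hp : -L ≤ p) (hq : q ≤ L) :
    |(volume (g ⁻¹' rect a b p q)).toReal - (b - a) * (q - p)| ≤
      2 * δ * ((b - a) + (q - p)) + 4 * δ ^ 2 := by
  have hsub : rect a b p q ⊆ rect (-L) L (-L) L := by
    rintro z ⟨⟨h1, h2⟩, h3, h4⟩
    exact ⟨⟨ha.trans h1, h2.trans hb⟩, hp.trans h3, h4.trans hq⟩
  have hre : ∀ z, ‖z‖ ≤ R → |(g z).re - (f z).re| ≤ δ := fun z hz => by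
    rw [← Complex.sub_re]
    exact (Complex.abs_re_le_norm _).trans (hfg z hz)
  have him : ∀ z, ‖z‖ ≤ R → |(g z).im - (f z).im| ≤ δ := fun z hz => by
    rw [← Complex.sub_im]
    exact (Complex.abs_im_le_norm _).trans (hfg z hz)
  have up : g ⁻¹' rect a b p q ⊆ f ⁻¹' rect (a - δ) (b + δ) (p - δ) (q + δ) := by
    intro z hz
    have hzR := hR' z (hsub hz)
    obtain ⟨⟨h1, h2⟩, h3, h4⟩ := hz
    have e1 := abs_le.1 (hre z hzR)
    have e2 := abs_le.1 (him z hzR)
    exact ⟨⟨by linarith, by linarith⟩, by linarith, by linarith⟩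
  have lo : f ⁻¹' rect (a + δ) (b - δ) (p + δ) (q - δ) ⊆ g ⁻¹' rect a b p q := by
    intro z hz
    obtain ⟨⟨h1, h2⟩, h3, h4⟩ := hz
    have hzR : ‖z‖ ≤ R := hR z ⟨⟨by linarith, by linarith⟩, by linarith, by linarith⟩
    have e1 := abs_le.1 (hre z hzR)
    have e2 := abs_le.1 (him z hzR)
    exact ⟨⟨by linarith, by linarith⟩, by linarith, by linarith⟩
  have v1 : volume (g ⁻¹' rect a b p q) ≤
      ENNReal.ofReal ((b - a + 2 * δ) * (q - p + 2 * δ)) := by
    refine (measure_mono up).trans ?_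
    rw [hf.measure_preimage (measurableSet_rect _ _ _ _).nullMeasurableSet, volume_rect,
      ← ENNReal.ofReal_mul (by linarith)]
    apply ENNReal.ofReal_le_ofReal
    apply le_of_eq
    ring
  have v2 : ENNReal.ofReal (b - a - 2 * δ) * ENNReal.ofReal (q - p - 2 * δ) ≤
      volume (g ⁻¹' rect a b p q) := by
    refine le_trans ?_ (measure_mono lo)
    rw [hf.measure_preimage (measurableSet_rect _ _ _ _).nullMeasurableSet, volume_rect]
    have e1 : b - δ - (a + δ) = b - a - 2 * δ := by ring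
    have e2 : q - δ - (p + δ) = q - p - 2 * δ := by ring
    rw [e1, e2]
  have hne : volume (g ⁻¹' rect a b p q) ≠ ⊤ := (v1.trans_lt ENNReal.ofReal_lt_top).ne
  have w1 : (volume (g ⁻¹' rect a b p q)).toReal ≤ (b - a + 2 * δ) * (q - p + 2 * δ) := by
    apply ENNReal.toReal_le_of_le_ofReal _ v1
    have : 0 ≤ b - a + 2 * δ := by linarith
    have : 0 ≤ q - p + 2 * δ := by linarith
    positivity
  have w0 : 0 ≤ (volume (g ⁻¹' rect a b p q)).toReal := ENNReal.toReal_nonneg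
  have w2 : (b - a) * (q - p) - 2 * δ * ((b - a) + (q - p)) ≤
      (volume (g ⁻¹' rect a b p q)).toReal := by
    by_cases c1 : b - a - 2 * δ ≤ 0
    · refine le_trans ?_ w0
      nlinarith
    · by_cases c2 : q - p - 2 * δ ≤ 0
      · refine le_trans ?_ w0
        nlinarith
      · rw [not_le] at c1 c2
        rw [← ENNReal.ofReal_mul c1.le] at v2
        have := ENNReal.toReal_mono hne v2
        rw [ENNReal.toReal_ofReal (by positivity)] at this
        nlinarith
  rw [abs_le]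
  constructor
  · nlinarith
  · nlinarith

/-- the preimage of a large square is in the ball -/
lemma preim_sub (f g : ℂ ≃ₜ ℂ) (R L : ℝ) (hL : 0 ≤ L)
    (hR : ∀ z, f z ∈ rect (-(L + 1)) (L + 1) (-(L + 1)) (L + 1) → ‖z‖ < R)
    (hfg : ∀ z : ℂ, ‖z‖ ≤ R → ‖g z - f z‖ ≤ 1) (hL1 : 1 ≤ L) :
    ∀ z, g z ∈ rect (-L) L (-L) L → ‖z‖ ≤ R := by
  have hconn : IsPreconnected (g ⁻¹' rect (-L) L (-L) L) :=
    (Homeomorph.isPreconnected_preimage g).2 (convex_rect _ _ _ _).isPreconnected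
  have hin : ∀ w : ℂ, g w ∈ rect (-L) L (-L) L → ‖w‖ ≤ R → ‖w‖ < R := by
    intro w hw hwR
    apply hR
    have e1 := abs_le.1 ((Complex.abs_re_le_norm _).trans (hfg w hwR))
    have e2 := abs_le.1 ((Complex.abs_im_le_norm _).trans (hfg w hwR))
    rw [Complex.sub_re] at e1
    rw [Complex.sub_im] at e2
    obtain ⟨⟨h1, h2⟩, h3, h4⟩ := hw
    exact ⟨⟨by linarith, by linarith⟩, by linarith, by linarith⟩
  intro z hz
  by_contra hcon
  rw [not_le] at hcon
  set z0 := f.symm 0 with hz0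
  have hfz0 : f z0 = 0 := f.apply_symm_apply 0
  have hz0R : ‖z0‖ < R := by
    apply hR
    rw [hfz0]
    refine ⟨⟨?_, ?_⟩, ?_, ?_⟩ <;> simp <;> linarith
  have hgz0 : g z0 ∈ rect (-L) L (-L) L := by
    have h1 := hfg z0 hz0R.le
    rw [hfz0, sub_zero] at h1
    have e1 := abs_le.1 ((Complex.abs_re_le_norm _).trans h1)
    have e2 := abs_le.1 ((Complex.abs_im_le_norm _).trans h1)
    exact ⟨⟨by linarith, by linarith⟩, by linarith, by linarith⟩
  obtain ⟨w, hw, hwR⟩ := hconn.intermediate_value (f := fun z : ℂ => ‖z‖) hgz0 hz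
    continuous_norm.continuousOn ⟨hz0R.le, hcon.le⟩
  have hwR' : ‖w‖ = R := hwR
  have := hin w hw hwR'.le
  linarith

end Pool.Agent.V8H60.Area
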