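import Mathlib

/-!
Triangular diffeomorphisms of the plane (helper60, part P1 of MP_cbfcf7_gt).
-/

set_option autoImplicit false

namespace Pool.Agent.V8H60.Area

open Complex
open scoped ContDiff

/-- determinant of a real linear endomorphism of `ℂ` -/
lemma det_formula (T : ℂ →L[ℝ] ℂ) : T.det = (T 1).re * (T I).im - (T I).re * (T 1).im := by
  have h : T.det = LinearMap.det (T : ℂ →ₗ[ℝ] ℂ) := rfl
  rw [h, ← LinearMap.det_toMatrix Complex.basisOneI, Matrix.det_fin_two]
  simp [LinearMap.toMatrix_apply, Complex.coe_basisOneI_repr, Complex.coe_basisOneI]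

lemma det_contDiff : ContDiff ℝ ∞ (fun T : ℂ →L[ℝ] ℂ => T.det) := by
  have e : (fun T : ℂ →L[ℝ] ℂ => T.det) =
      fun T : ℂ →L[ℝ] ℂ => (T 1).re * (T I).im - (T I).re * (T 1).im := by
    funext T
    exact det_formula T
  rw [e]
  have h1 : ∀ v : ℂ, ContDiff ℝ ∞ (fun T : ℂ →L[ℝ] ℂ => T v) := fun v =>
    (ContinuousLinearMap.apply ℝ ℂ v).contDiff
  have hre : ContDiff ℝ ∞ (fun z : ℂ => z.re) := Complex.reCLM.contDiff
  have him : ContDiff ℝ ∞ (fun z : ℂ => z.im) := Complex.imCLM.contDiff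
  exact ((hre.comp (h1 1)).mul (him.comp (h1 I))).sub ((hre.comp (h1 I)).mul (him.comp (h1 1)))

/-- A real function on the line with derivative at least `c > 0` is a bijection. -/
lemma line_bij (u : ℝ → ℝ) (c : ℝ) (hc : 0 < c) (u' : ℝ → ℝ) (hu : ∀ x, HasDerivAt u (u' x) x)
    (hu' : ∀ x, c ≤ u' x) : Function.Bijective u := by
  have hmono : StrictMono u := strictMono_of_deriv_pos fun x => by
    rw [(hu x).deriv]
    exact hc.trans_le (hu' x)
  have hcont : Continuous u := continuous_iff_continuousAt.2 fun x => (hu x).continuousAt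
  refine ⟨hmono.injective, ?_⟩
  have hm : Monotone (fun x => u x - c * x) := by
    apply monotone_of_deriv_nonneg
    · intro x
      exact ((hu x).sub ((hasDerivAt_id x).const_mul c)).differentiableAt
    · intro x
      have := ((hu x).sub ((hasDerivAt_id x).const_mul c)).deriv
      have e : deriv (fun x => u x - c * x) x = u' x - c * 1 := this
      rw [e]
      linarith [hu' x]
  apply hcont.surjective
  · apply Filter.tendsto_atTop_mono' (f₁ := fun x => u 0 + c * x)
    · filter_upwards [Filter.eventually_ge_atTop 0] with x hx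
      have := hm hx
      simp only at this
      linarith
    · exact Filter.tendsto_atTop_add_const_left _ _ (Filter.tendsto_id.const_mul_atTop hc)
  · apply Filter.tendsto_atBot_mono' (f₁ := fun x => u 0 + c * x) (l := Filter.atBot)
    · filter_upwards [Filter.eventually_le_atBot 0] with x hx
      have := hm hx
      simp only at this
      linarith
    · exact Filter.tendsto_atBot_add_const_left _ _ (Filter.tendsto_id.const_mul_atBot hc)

/-- horizontal triangular diffeomorphism -/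
lemma horiz (φ : ℂ → ℝ) (hφ : ContDiff ℝ ∞ φ) (c : ℝ) (hc : 0 < c)
    (hd : ∀ z, c ≤ fderiv ℝ φ z 1) :
    ∃ h : ℂ ≃ₜ ℂ, (∀ z, h z = (φ z : ℂ) + (z.im : ℂ) * I) ∧ ContDiff ℝ ∞ (⇑h) ∧
      ContDiff ℝ ∞ (⇑h.symm) ∧ ∀ z, (fderiv ℝ (⇑h) z).det = fderiv ℝ φ z 1 := by
  set H : ℂ → ℂ := fun z => (φ z : ℂ) + (z.im : ℂ) * I with hH
  have hHre : ∀ z, (H z).re = φ z := fun z => by simp [hH]
  have hHim : ∀ z, (H z).im = z.im := fun z => by simp [hH]
  have hHs : ContDiff ℝ ∞ H := by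
    have h1 : ContDiff ℝ ∞ (fun z : ℂ => (φ z : ℂ)) := Complex.ofRealCLM.contDiff.comp hφ
    have h2 : ContDiff ℝ ∞ (fun z : ℂ => (z.im : ℂ)) :=
      Complex.ofRealCLM.contDiff.comp Complex.imCLM.contDiff
    exact h1.add (h2.mul contDiff_const)
  have hφd : ∀ z, HasFDerivAt φ (fderiv ℝ φ z) z := fun z =>
    (hφ.differentiable (by simp) z).hasFDerivAt
  have hHd : ∀ z, HasFDerivAt H (fderiv ℝ H z) z := fun z =>
    (hHs.differentiable (by simp) z).hasFDerivAt
  have hre : ∀ z v, (fderiv ℝ H z v).re = fderiv ℝ φ z v := by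
    intro z v
    have h1 : HasFDerivAt (fun z => (H z).re) (Complex.reCLM.comp (fderiv ℝ H z)) z :=
      Complex.reCLM.hasFDerivAt.comp z (hHd z)
    have e : (fun z => (H z).re) = φ := funext hHre
    rw [e] at h1
    rw [(hφd z).unique h1]
    rfl
  have him : ∀ z v, (fderiv ℝ H z v).im = v.im := by
    intro z v
    have h1 : HasFDerivAt (fun z => (H z).im) (Complex.imCLM.comp (fderiv ℝ H z)) z :=
      Complex.imCLM.hasFDerivAt.comp z (hHd z)
    have e : (fun z => (H z).im) = fun z => Complex.imCLM z := funext hHim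
    rw [e] at h1
    have := h1.unique Complex.imCLM.hasFDerivAt
    have h2 := congrArg (fun L => L v) this
    exact h2
  have hdet : ∀ z, (fderiv ℝ H z).det = fderiv ℝ φ z 1 := by
    intro z
    rw [det_formula, him, him, hre]
    simp
  -- bijectivity
  have hline : ∀ y : ℝ, Function.Bijective (fun x : ℝ => φ ((x : ℂ) + (y : ℂ) * I)) := by
    intro y
    refine line_bij _ c hc (fun x => fderiv ℝ φ ((x : ℂ) + (y : ℂ) * I) 1) ?_ (fun x => hd _)
    intro x
    have h1 : HasDerivAt (fun x : ℝ => (x : ℂ) + (y : ℂ) * I) 1 x := by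
      have := (Complex.ofRealCLM.hasDerivAt (x := x)).add_const ((y : ℂ) * I)
      simpa using this
    exact (hφd _).comp_hasDerivAt x h1
  have hbij : Function.Bijective H := by
    constructor
    · intro z w hzw
      have h1 : z.im = w.im := by rw [← hHim z, ← hHim w, hzw]
      have h2 : φ z = φ w := by rw [← hHre z, ← hHre w, hzw]
      have h3 : z.re = w.re := by
        apply (hline z.im).1
        show φ ((z.re : ℂ) + (z.im : ℂ) * I) = φ ((w.re : ℂ) + (z.im : ℂ) * I)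
        rw [Complex.re_add_im, h1, Complex.re_add_im, h2]
      exact Complex.ext h3 h1
    · intro w
      obtain ⟨x, hx⟩ := (hline w.im).2 w.re
      refine ⟨(x : ℂ) + (w.im : ℂ) * I, ?_⟩
      apply Complex.ext
      · rw [hHre]
        exact hx
      · rw [hHim]
        simp
  have hunit : ∀ z, ∃ e : ℂ ≃L[ℝ] ℂ, (e : ℂ →L[ℝ] ℂ) = fderiv ℝ H z := by
    intro z
    have h1 : (fderiv ℝ H z).det ≠ 0 := by
      rw [hdet]
      exact (hc.trans_le (hd z)).ne'
    exact ⟨(fderiv ℝ H z).toContinuousLinearEquivOfDetNeZero h1,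
      ContinuousLinearMap.coe_toContinuousLinearEquivOfDetNeZero _ h1⟩
  choose e he using hunit
  have hopen : IsOpenMap H := by
    refine isOpenMap_iff_nhds_le.2 fun z => ?_
    have h1 : HasStrictFDerivAt H ((e z : ℂ ≃L[ℝ] ℂ) : ℂ →L[ℝ] ℂ) z := by
      rw [he]
      exact hHs.contDiffAt.hasStrictFDerivAt (by simp)
    rw [h1.map_nhds_eq_of_equiv]
  let h : ℂ ≃ₜ ℂ := (Equiv.ofBijective H hbij).toHomeomorphOfContinuousOpen hHs.continuous hopen
  have hh : ∀ z, h z = H z := fun z => rfl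
  refine ⟨h, hh, hHs, ?_, hdet⟩
  refine h.contDiff_symm (f₀' := e) ?_ hHs
  intro z
  rw [he]
  exact hHd z

/-- the swap of the coordinates -/
noncomputable def sw : ℂ →L[ℝ] ℂ :=
  Complex.imCLM.smulRight (1 : ℂ) + Complex.reCLM.smulRight (I : ℂ)

lemma sw_apply (z : ℂ) : sw z = (z.im : ℂ) + (z.re : ℂ) * I := by
  simp [sw]

lemma sw_sw (z : ℂ) : sw (sw z) = z := by
  rw [sw_apply, sw_apply]
  apply Complex.ext <;> simp

noncomputable def swH : ℂ ≃ₜ ℂ where
  toFun := sw
  invFun := sw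
  left_inv := sw_sw
  right_inv := sw_sw
  continuous_toFun := sw.continuous
  continuous_invFun := sw.continuous

/-- vertical triangular diffeomorphism -/
lemma vert (ψ : ℂ → ℝ) (hψ : ContDiff ℝ ∞ ψ) (c : ℝ) (hc : 0 < c)
    (hd : ∀ z, c ≤ fderiv ℝ ψ z I) :
    ∃ h : ℂ ≃ₜ ℂ, (∀ z, h z = (z.re : ℂ) + (ψ z : ℂ) * I) ∧ ContDiff ℝ ∞ (⇑h) ∧
      ContDiff ℝ ∞ (⇑h.symm) ∧ ∀ z, (fderiv ℝ (⇑h) z).det = fderiv ℝ ψ z I := by
  have hfd : ∀ z v, fderiv ℝ (fun z => ψ (sw z)) z v = fderiv ℝ ψ (sw z) (sw v) := by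
    intro z v
    have h1 : HasFDerivAt (fun z => ψ (sw z)) ((fderiv ℝ ψ (sw z)).comp sw) z :=
      (hψ.differentiable (by simp) (sw z)).hasFDerivAt.comp z sw.hasFDerivAt
    rw [h1.fderiv]
    rfl
  have hsw1 : sw 1 = I := by rw [sw_apply]; simp
  have hswI : sw I = 1 := by rw [sw_apply]; simp
  obtain ⟨h, h1, h2, h3, h4⟩ := horiz (fun z => ψ (sw z)) (hψ.comp sw.contDiff) c hc (by
    intro z
    rw [hfd, hsw1]
    exact hd _)
  have hval : ∀ z, sw (h (sw z)) = (z.re : ℂ) + (ψ z : ℂ) * I := by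
    intro z
    rw [h1, sw_sw, sw_apply, sw_apply]
    apply Complex.ext <;> simp
  refine ⟨(swH.trans h).trans swH, hval, sw.contDiff.comp (h2.comp sw.contDiff),
    sw.contDiff.comp (h3.comp sw.contDiff), ?_⟩
  intro z
  have hd1 : HasFDerivAt (fun z => sw (h (sw z))) (sw.comp ((fderiv ℝ h (sw z)).comp sw)) z :=
    sw.hasFDerivAt.comp z ((h2.differentiable (by simp) (sw z)).hasFDerivAt.comp z sw.hasFDerivAt)
  have e : (⇑((swH.trans h).trans swH)) = fun z => sw (h (sw z)) := rfl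
  rw [e, hd1.fderiv]
  have hdets : sw.det * sw.det = 1 := by
    rw [det_formula, hsw1, hswI]
    simp
  have : (sw.comp ((fderiv ℝ h (sw z)).comp sw)).det =
      sw.det * ((fderiv ℝ h (sw z)).det * sw.det) := by
    show LinearMap.det ((sw : ℂ →ₗ[ℝ] ℂ) ∘ₗ (((fderiv ℝ h (sw z) : ℂ →L[ℝ] ℂ) : ℂ →ₗ[ℝ] ℂ) ∘ₗ
      (sw : ℂ →ₗ[ℝ] ℂ))) = _
    rw [LinearMap.det_comp, LinearMap.det_comp]
  rw [this, h4, hfd, hsw1, sw_sw]
  calc sw.det * (fderiv ℝ ψ z I * sw.det) = (sw.det * sw.det) * fderiv ℝ ψ z I := by ring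
    _ = fderiv ℝ ψ z I := by rw [hdets, one_mul]

end Pool.Agent.V8H60.Area
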